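import Pool.Agent.Helper74.OKA.Defs

set_option autoImplicit false

namespace Pool.Agent.Helper74.OKA

/-- the region of integration -/
def Rc (ε R : ℝ) : Set ℂ := {w | |w.re| < ε / 2 ∧ |w.im| < R}

/-- the ramp -/
noncomputable def ramp (ε x : ℝ) : ℝ := max 0 (min 1 ((x + ε / 2) / ε))

end Pool.Agent.Helper74.OKA
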