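import Pool.Agent.Helper74.OKA.St.A01
import Pool.Agent.Helper74.OKA.St.A02
import Pool.Agent.Helper74.OKA.St.A03
import Pool.Agent.Helper74.OKA.St.A2a
import Pool.Agent.Helper74.OKA.St.A2b
import Pool.Agent.Helper74.OKA.St.A3
import Pool.Agent.Helper74.OKA.St.A4
import Pool.Agent.Helper74.OKA.St.A5
import Pool.Agent.Helper74.OKA.St.A6
import Pool.Agent.Helper74.OKA.St.A7
import Pool.Agent.Helper74.OKA.St.A8
import Pool.Agent.Helper74.OKA.St.A9
import Pool.Agent.Helper74.OKA.St.A10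
import Pool.Agent.Helper74.OKA.St.A11
import Pool.Agent.Helper74.OKA.St.A12
import Pool.Agent.Helper74.OKA.St.A13
import Pool.Agent.Helper74.OKA.St.A14
import Pool.Agent.Helper74.OKA.St.B1
import Pool.Agent.Helper74.OKA.St.B2
import Pool.Agent.Helper74.OKA.St.B3a
import Pool.Agent.Helper74.OKA.St.B3bcd
import Pool.Agent.Helper74.OKA.St.B4
import Pool.Agent.Helper74.OKA.St.B5
import Pool.Agent.Helper74.OKA.St.C1
import Pool.Agent.Helper74.OKA.St.C2
import Pool.Agent.Helper74.OKA.St.C3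
import Pool.Agent.Helper74.OKA.St.C4
import Pool.Agent.Helper74.OKA.St.C5
import Pool.Agent.Helper74.OKA.St.C6
import Pool.Agent.Helper74.OKA.St.C7
import Pool.Agent.Helper74.OKA.St.C8
import Pool.Agent.Helper74.OKA.St.C9
import Pool.Agent.Helper74.OKA.St.C10

set_option autoImplicit false

open Set Metric Topology MeasureTheory
open scoped Manifold ContDiff

namespace Pool.Agent.Helper74.OKA

universe u

variable (F : Type) [NormedAddCommGroup F] [NormedSpace ℂ F] [FiniteDimensional ℂ F]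
  {Y : Type u} [MetricSpace Y] [ChartedSpace F Y] [IsManifold 𝓘(ℂ, F) 1 Y]
  {E : Type} [NormedAddCommGroup E] [NormedSpace ℂ E] [FiniteDimensional ℂ E]

variable (Y) in
/-- C11 -/
theorem cap_of_bap (h : BAP F Y) : CAP F Y := by
  intro n _ K hK hKc U f hU hKU hf ε hε
  obtain ⟨W, hW, hKW, _, hA⟩ := approx_convex F h (hasSprays F Y) K hK hKc U hU hKU
  obtain ⟨g, hg, hgf⟩ := hA f hf ε hε
  exact ⟨g, hg, fun z hz => hgf z (hKW hz)⟩

variable (Y) in
theorem bap_iff_cap : BAP F Y ↔ CAP F Y :=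
  ⟨cap_of_bap F Y, fun h n hn c r _ U f hU hcU hf ε hε =>
    h n hn (closedBall c r) (isCompact_closedBall c r) (convex_closedBall c r) U f hU hcU hf ε hε⟩


end Pool.Agent.Helper74.OKA
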