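import Mathlib

/-!
# Ball approximation implies convex approximation (Gromov's question), MP_7bedea_an

Definitions.  All auxiliary complex vector spaces live in `Type`; they are finite dimensional.
-/

set_option autoImplicit false

open Set Metric Topology
open scoped Manifold ContDiff

namespace Pool.Agent.Helper74.OKA

universe u

/-! ## Approximation of maps into a complex manifold -/

section Manifold

variable (F : Type) [NormedAddCommGroup F] [NormedSpace ℂ F]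
  (Y : Type u) [MetricSpace Y] [ChartedSpace F Y]

/-- `K` has the approximation property for maps into `Y`: every map holomorphic on the open
neighbourhood `U` of `K` is a uniform limit, on a neighbourhood `W` of `K` which depends only on
`U`, of entire maps. -/
def Approx {E : Type} [NormedAddCommGroup E] [NormedSpace ℂ E] (K : Set E) : Prop :=
  ∀ U : Set E, IsOpen U → K ⊆ U → ∃ W : Set E, IsOpen W ∧ K ⊆ W ∧ W ⊆ U ∧
    ∀ f : E → Y, MDifferentiableOn 𝓘(ℂ, E) 𝓘(ℂ, F) f U → ∀ ε > 0,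
      ∃ g : E → Y, MDifferentiable 𝓘(ℂ, E) 𝓘(ℂ, F) g ∧ ∀ z ∈ W, dist (g z) (f z) < ε

/-- the approximation property for all closed Euclidean balls in `ℂⁿ` -/
def BAP : Prop :=
  ∀ (n : ℕ), 1 ≤ n → ∀ (c : EuclideanSpace ℂ (Fin n)) (r : ℝ), 0 < r →
    ∀ (U : Set (EuclideanSpace ℂ (Fin n))) (f : EuclideanSpace ℂ (Fin n) → Y), IsOpen U →
      closedBall c r ⊆ U → MDifferentiableOn 𝓘(ℂ, EuclideanSpace ℂ (Fin n)) 𝓘(ℂ, F) f U →
      ∀ ε > 0, ∃ g : EuclideanSpace ℂ (Fin n) → Y,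
        MDifferentiable 𝓘(ℂ, EuclideanSpace ℂ (Fin n)) 𝓘(ℂ, F) g ∧
        ∀ z ∈ closedBall c r, dist (g z) (f z) < ε

/-- the approximation property for all compact convex sets in `ℂⁿ` -/
def CAP : Prop :=
  ∀ (n : ℕ), 1 ≤ n → ∀ K : Set (EuclideanSpace ℂ (Fin n)), IsCompact K → Convex ℝ K →
    ∀ (U : Set (EuclideanSpace ℂ (Fin n))) (f : EuclideanSpace ℂ (Fin n) → Y), IsOpen U →
      K ⊆ U → MDifferentiableOn 𝓘(ℂ, EuclideanSpace ℂ (Fin n)) 𝓘(ℂ, F) f U →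
      ∀ ε > 0, ∃ g : EuclideanSpace ℂ (Fin n) → Y,
        MDifferentiable 𝓘(ℂ, EuclideanSpace ℂ (Fin n)) 𝓘(ℂ, F) g ∧ ∀ z ∈ K, dist (g z) (f z) < ε

variable {Y}
variable {E : Type} [NormedAddCommGroup E] [NormedSpace ℂ E]

/-- the family of maps `s (z, ·)` is étale at `(z₀, t₀)`: the map `(z, t) ↦ (z, s (z, t))` has a
local holomorphic inverse `(z, y) ↦ (z, Θ (z, y))`. -/
def EtaleAt (s : E × F → Y) (x₀ : E × F) : Prop :=
  ∃ (O : Set (E × F)) (N : Set (E × Y)) (Θ : E × Y → F),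
    IsOpen O ∧ x₀ ∈ O ∧ IsOpen N ∧ ContinuousOn Θ N ∧
    (∀ z t, (z, t) ∈ O → (z, s (z, t)) ∈ N ∧ Θ (z, s (z, t)) = t) ∧
    (∀ z y, (z, y) ∈ N → (z, Θ (z, y)) ∈ O ∧ s (z, Θ (z, y)) = y) ∧
    ∀ (Z : Type) [NormedAddCommGroup Z] [NormedSpace ℂ Z] [FiniteDimensional ℂ Z] (D : Set Z)
      (q : Z → E) (g : Z → Y), IsOpen D → DifferentiableOn ℂ q D →
      MDifferentiableOn 𝓘(ℂ, Z) 𝓘(ℂ, F) g D → (∀ x ∈ D, (q x, g x) ∈ N) →
      DifferentiableOn ℂ (fun x => Θ (q x, g x)) D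

/-- a spray with core `f` over a neighbourhood of `X`, together with its inverse -/
def HasSpray (f : E → Y) (X : Set E) : Prop :=
  ∃ (U : Set E) (r : ℝ) (s : E × F → Y) (Θ : E × Y → F) (N : Set (E × Y)),
    IsOpen U ∧ X ⊆ U ∧ 0 < r ∧
    MDifferentiableOn 𝓘(ℂ, E × F) 𝓘(ℂ, F) s (U ×ˢ ball 0 r) ∧
    (∀ z ∈ U, s (z, 0) = f z) ∧
    IsOpen N ∧ ContinuousOn Θ N ∧
    (∀ z ∈ U, ∀ t ∈ ball (0 : F) r, (z, s (z, t)) ∈ N ∧ Θ (z, s (z, t)) = t) ∧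
    (∀ z y, (z, y) ∈ N → z ∈ U ∧ Θ (z, y) ∈ ball (0 : F) r ∧ s (z, Θ (z, y)) = y) ∧
    ∀ (Z : Type) [NormedAddCommGroup Z] [NormedSpace ℂ Z] [FiniteDimensional ℂ Z] (D : Set Z)
      (q : Z → E) (g : Z → Y), IsOpen D → DifferentiableOn ℂ q D →
      MDifferentiableOn 𝓘(ℂ, Z) 𝓘(ℂ, F) g D → (∀ x ∈ D, (q x, g x) ∈ N) →
      DifferentiableOn ℂ (fun x => Θ (q x, g x)) D

variable (Y) in
/-- sprays exist over all compact convex sets -/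
def HasSprays : Prop :=
  ∀ (E : Type) [NormedAddCommGroup E] [NormedSpace ℂ E] [FiniteDimensional ℂ E] (X : Set E)
    (f : E → Y) (U : Set E), IsCompact X → Convex ℝ X → IsOpen U → X ⊆ U →
    MDifferentiableOn 𝓘(ℂ, E) 𝓘(ℂ, F) f U → HasSpray F f X

end Manifold

/-! ## Ball-like sets -/

/-- the real segment `[-1,1]` in `ℂ` -/
def seg : Set ℂ := {z | z.im = 0 ∧ |z.re| ≤ 1}

/-- `K` has arbitrarily small ball-like neighbourhoods -/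
def BallLike {E : Type} [NormedAddCommGroup E] [NormedSpace ℂ E] (K : Set E) : Prop :=
  ∀ U : Set E, IsOpen U → K ⊆ U → ∃ (H : Type) (_ : NormedAddCommGroup H)
    (_ : InnerProductSpace ℂ H) (_ : FiniteDimensional ℂ H) (Φ : H → E) (V : Set H) (W : Set E),
    IsOpen V ∧ closedBall 0 1 ⊆ V ∧ DifferentiableOn ℂ Φ V ∧ MapsTo Φ V U ∧
    IsOpen W ∧ K ⊆ W ∧ W ⊆ U ∧
    ∀ ε > 0, ∃ ψ : E → H, Differentiable ℂ ψ ∧ ∀ z ∈ W, ‖ψ z‖ ≤ 1 ∧ ‖Φ (ψ z) - z‖ < ε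

/-! ## Splitting of holomorphic functions -/

/-- the slab `|re w| < ε`, `|im w| < R` -/
def Cs (ε R : ℝ) : Set ℂ := {w | |w.re| < ε ∧ |w.im| < R}
/-- the left part `re w < ε`, `|im w| < R` -/
def As (ε R : ℝ) : Set ℂ := {w | w.re < ε ∧ |w.im| < R}
/-- the right part `-ε < re w`, `|im w| < R` -/
def Bs (ε R : ℝ) : Set ℂ := {w | -ε < w.re ∧ |w.im| < R}

section Functions

variable {G G' F : Type} [NormedAddCommGroup G] [NormedSpace ℂ G] [NormedAddCommGroup G']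
  [NormedSpace ℂ G'] [NormedAddCommGroup F] [NormedSpace ℂ F]

/-- holomorphic on `W × P` and bounded by `M` -/
def HB (W : Set G) (P : Set G') (M : ℝ) (c : G × G' → F) : Prop :=
  DifferentiableOn ℂ c (W ×ˢ P) ∧ ∀ x ∈ W ×ˢ P, ‖c x‖ ≤ M

variable (F) in
/-- the additive Cousin problem with bounds for the compact set `K`, cut along `m = t`, with
holomorphic parameters in `P` -/
def CP (P : Set G') (K : Set G) (m : G → ℝ) (t : ℝ) : Prop :=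
  ∀ W : Set G, IsOpen W → K ∩ {z | m z = t} ⊆ W → ∃ (U₁ U₂ : Set G) (M : ℝ),
    IsOpen U₁ ∧ IsOpen U₂ ∧ K ∩ {z | m z ≤ t} ⊆ U₁ ∧ K ∩ {z | t ≤ m z} ⊆ U₂ ∧ U₁ ∩ U₂ ⊆ W ∧
    0 ≤ M ∧ ∀ c : G × G' → F, HB W P 1 c → ∃ a b : G × G' → F, HB U₁ P M a ∧ HB U₂ P M b ∧
      (∀ z ∈ U₁ ∩ U₂, ∀ p ∈ P, b (z, p) - a (z, p) = c (z, p)) ∧
      ∀ p ∈ P, (∀ z ∈ W, c (z, p) = 0) → (∀ z ∈ U₁, a (z, p) = 0) ∧ ∀ z ∈ U₂, b (z, p) = 0

variable (F) in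
/-- extension from the graph of `lam` to a neighbourhood of `Π ⊆ G × ℂ` -/
def ExtW (P : Set G') (lam : G →L[ℂ] ℂ) (W : Set G) (Q : Set (G × ℂ)) : Prop :=
  ∃ (V : Set (G × ℂ)) (M : ℝ), IsOpen V ∧ Q ⊆ V ∧ 0 ≤ M ∧ (∀ z, (z, lam z) ∈ V → z ∈ W) ∧
    ∀ c : G × G' → F, HB W P 1 c → ∃ C : (G × ℂ) × G' → F, HB V P M C ∧
      (∀ z, (z, lam z) ∈ V → ∀ p ∈ P, C ((z, lam z), p) = c (z, p)) ∧
      ∀ p ∈ P, (∀ z ∈ W, c (z, p) = 0) → ∀ x ∈ V, C (x, p) = 0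

variable (F) in
/-- the nonlinear splitting problem for the compact set `K`, cut along `m = t` -/
def NS (K : Set G) (m : G → ℝ) (t : ℝ) : Prop :=
  ∀ W : Set G, IsOpen W → K ∩ {z | m z = t} ⊆ W → ∃ U₁ U₂ : Set G,
    IsOpen U₁ ∧ IsOpen U₂ ∧ K ∩ {z | m z ≤ t} ⊆ U₁ ∧ K ∩ {z | t ≤ m z} ⊆ U₂ ∧ U₁ ∩ U₂ ⊆ W ∧
    ∀ ρ > 0, ∃ δ > 0, ∀ η : G × F → F, HB W (ball 0 1) δ η → ∃ a b : G × F → F,
      HB U₁ (ball 0 (1 / 2)) ρ a ∧ HB U₂ (ball 0 (1 / 2)) ρ b ∧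
      (∀ z ∈ U₁ ∩ U₂, ∀ s ∈ ball (0 : F) (1 / 2), b (z, s) = a (z, s) + η (z, s + a (z, s))) ∧
      ((∀ z ∈ W, η (z, 0) = 0) → (∀ z ∈ U₁, a (z, 0) = 0) ∧ ∀ z ∈ U₂, b (z, 0) = 0)

end Functions

/-! ## Polyhedra -/

section Poly

variable {G : Type} [NormedAddCommGroup G] [NormedSpace ℂ G]

/-- closed rectangles in `ℂ` (possibly degenerate or empty) -/
def IsRect (Q : Set ℂ) : Prop :=
  ∃ a b c d : ℝ, Q = {w | a ≤ w.re ∧ w.re ≤ b ∧ c ≤ w.im ∧ w.im ≤ d}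

/-- linear coordinates on `G`, with the dual basis `v` -/
def IsCoord {ι : Type} [Fintype ι] [DecidableEq ι] (e : ι → G →L[ℂ] ℂ) (v : ι → G) : Prop :=
  (∀ i j, e i (v j) = if i = j then 1 else 0) ∧ ∀ z, ∑ i, e i z • v i = z

/-- the polyhedron given by conditions on the coordinates and on further functionals -/
def Poly {ι : Type} (e : ι → G →L[ℂ] ℂ) (Q : ι → Set ℂ) (L : List ((G →L[ℂ] ℂ) × Set ℂ)) :
    Set G :=
  {z | (∀ i, e i z ∈ Q i) ∧ ∀ x ∈ L, x.1 z ∈ x.2}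

end Poly

end Pool.Agent.Helper74.OKA
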